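import Pool.Agent.PWL.ABClu
import Pool.Agent.PWL.FitNil

/-!
# The Fitting subgroup: a logarithmic bound for the derived length across ranges of degrees without
large gaps
-/

namespace Pool.Agent.Results.MP_d8bc21_al.FittingGaps

open Pool.PWL Pool.TKB

/-- Let `G` be a finite group and let `F` be a nilpotent normal subgroup of `G`, or the Fitting
subgroup of `G`. For a prime `p` let `E = padicValNat p '' cd G` be the set of the exponents of the
`p`-parts of the degrees of the irreducible characters of `G`, and let `p ^ f` be the `p`-part of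
`|G : F|`. Suppose that for every prime `p` dividing `|F|` there are levels `0 = m 0, m 1, ..., m K`
with `e ≤ m K` for all `e ∈ E` and costs `c 0, ..., c (K - 1)` with
`1 + c 0 + ... + c (K - 1) ≤ n`, such that for every `k < K`
* `E` has at most `c k` elements in `(m k, m (k + 1)]`, or
* `E` has no element in `(m (k + 1), 2 * m (k + 1) + f]`, and `c k ≥ t + 2` for some `t` with
  `8 * m (k + 1) ≤ (m k + 1) * 2 ^ t` (so `c k = ⌈log₂ (m (k + 1) / (m k + 1))⌉ + 5` is enough if
  `m k < m (k + 1)`).

Then the derived length of `F` is at most `n`. In particular (`K = 2`, `m 1 = a - 1`) it is at most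
`#{e ∈ E | e < a} + ⌈log₂ (max E / a)⌉ + 5` if `a` is a positive integer with `a ≤ max E`. -/
theorem result (G : Type) [Group G] [Finite G] (F : Subgroup G)
    (hF : (F.Normal ∧ Group.IsNilpotent F) ∨
      F = sSup {N : Subgroup G | N.Normal ∧ Group.IsNilpotent N}) (n : ℕ)
    (h : ∀ p : ℕ, p.Prime → p ∣ Nat.card F → ∃ (K : ℕ) (m c : ℕ → ℕ), m 0 = 0 ∧
      (∀ e ∈ padicValNat p '' cd G, e ≤ m K) ∧ 1 + ∑ k ∈ Finset.range K, c k ≤ n ∧
      ∀ k < K, (padicValNat p '' cd G ∩ Set.Ioc (m k) (m (k + 1))).ncard ≤ c k ∨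
        ((∀ e ∈ padicValNat p '' cd G, e ≤ 2 * m (k + 1) + padicValNat p F.index →
          e ≤ m (k + 1)) ∧ ∃ t, 8 * m (k + 1) ≤ (m k + 1) * 2 ^ t ∧ t + 2 ≤ c k)) :
    derivedSeries F n = ⊥ := by
  obtain ⟨hn, hnil⟩ := fit_cases F hF
  exact fit_levels F hnil n h

end Pool.Agent.Results.MP_d8bc21_al.FittingGaps
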