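import Pool.Agent.PWL.MaxF
import Pool.Agent.PWL.FitNil

/-!
# Fitting subgroups with normally monomial Sylow subgroups of maximal class
-/

namespace Pool.Agent.Results.MP_d8bc21_al.FittingMaxClass

open Pool.PWL Pool.TKB

/-- Let `G` be a finite group and let `F` be a nilpotent normal subgroup of `G`, or the Fitting
subgroup of `G`. Suppose that for every prime `p` dividing `|F|` the Sylow `p`-subgroup `S` of `F`
is normally monomial of maximal class, i.e. of order `p ^ (c + 1)` and nilpotency class `c` for some
`c`, and that `p ^ (f + 1)` does not divide `|G : F|`. Then the derived length of `F` is at most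
`4 * ⌈log₂ ((f + 1) * |cd(G)|)⌉ + 3`. (For `F = G`, and more generally if `|F|` and `|G : F|` are
coprime, one can take `f = 0`.) -/
theorem result (G : Type) [Group G] [Finite G] (F : Subgroup G)
    (hF : (F.Normal ∧ Group.IsNilpotent F) ∨
      F = sSup {N : Subgroup G | N.Normal ∧ Group.IsNilpotent N}) (f : ℕ)
    (h : ∀ (p : ℕ) (_ : Fact p.Prime), p ∣ Nat.card F → padicValNat p F.index ≤ f ∧
      ∀ S : Sylow p F, ∃ c, Nat.card S = p ^ (c + 1) ∧ Group.nilpotencyClass S = c ∧
        NormallyMonomial S) :
    derivedSeries F (4 * Nat.clog 2 ((f + 1) * (cd G).ncard) + 3) = ⊥ := by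
  obtain ⟨hn, hnil⟩ := fit_cases F hF
  exact fit_maxclass_index F hnil f _ (fun p _ _ => ncard_parts_le p) h

end Pool.Agent.Results.MP_d8bc21_al.FittingMaxClass
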