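import Pool.Agent.PWL.Any
import Pool.Agent.PWL.FitNil
import Pool.Agent.PWL.MainW

/-!
# Fitting subgroups with powerful Sylow subgroups: a logarithmic bound for the derived length
-/

namespace Pool.Agent.Results.MP_d8bc21_al.FittingPowerful

open Pool.PWL Pool.TKB
open scoped commutatorElement

/-- Let `G` be a finite group and let `F` be a nilpotent normal subgroup of `G`, or the Fitting
subgroup of `G`. Let `n` be the maximum, over the primes `p` dividing `|F|`, of the number of
`p`-parts of the degrees of the irreducible characters of `G`, so `n ≤ |cd(G)|`. Suppose that every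
Sylow `p`-subgroup `S` of `F` is powerful (`[S, S] ≤ S^q`, where `q = p` if `p` is odd and `q = 4` if
`p = 2`), or satisfies `[S^(k+1), S^(k)] ≤ (S^(k+1))^q`. Then the derived length of `F` is at most
`k + 1 + ⌈log₂ n⌉`. -/
theorem result (G : Type) [Group G] [Finite G] (F : Subgroup G)
    (hF : (F.Normal ∧ Group.IsNilpotent F) ∨
      F = sSup {N : Subgroup G | N.Normal ∧ Group.IsNilpotent N})
    (k : ℕ)
    (h : ∀ (p : ℕ) (_ : Fact p.Prime), p ∣ Nat.card F → ∀ S : Sylow p F,
      ⁅(⊤ : Subgroup S), (⊤ : Subgroup S)⁆ ≤ pw (if p = 2 then 4 else p) (⊤ : Subgroup S) ∨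
      ⁅derivedSeries S (k + 1), derivedSeries S k⁆ ≤
        pw (if p = 2 then 4 else p) (derivedSeries S (k + 1))) :
    ((Nat.card F).primeFactors.sup fun p => (padicValNat p '' cd G).ncard) ≤ (cd G).ncard ∧
    derivedSeries F
      (k + 1 + Nat.clog 2 ((Nat.card F).primeFactors.sup fun p => (padicValNat p '' cd G).ncard)) =
        ⊥ := by
  obtain ⟨hn, hnil⟩ := fit_cases F hF
  refine ⟨sup_parts_le F, fit_powerful F hnil k _ (parts_le_sup F) fun p hp hd S => ?_⟩
  rcases h p hp hd S with h1 | h1
  · exact Or.inl h1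
  · exact Or.inr (PE_of_pw h1)

end Pool.Agent.Results.MP_d8bc21_al.FittingPowerful
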