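import Pool.Agent.PWL.Any
import Pool.Agent.PWL.FitNil

/-!
# The Fitting subgroup: a logarithmic bound for the derived length in terms of `|cd(G)|` and the
rank
-/

namespace Pool.Agent.Results.MP_d8bc21_al.FittingRank

open Pool.PWL Pool.TKB

/-- Let `G` be a finite group and let `F` be a nilpotent normal subgroup of `G`, or the Fitting
subgroup of `G`. Let `n` be the maximum, over the primes `p` dividing `|F|`, of the number of
`p`-parts of the degrees of the irreducible characters of `G`, so `n ≤ |cd(G)|`. Let
`2 * r + 1 ≤ 2 ^ k`. If the term `F^(k+1)` of the derived series can be generated by at most `r`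
elements (in particular, if every subgroup of `F` can be generated by `r` elements), then the
derived length of `F` is at most `k + 1 + ⌈log₂ n⌉`. -/
theorem result (G : Type) [Group G] [Finite G] (F : Subgroup G)
    (hF : (F.Normal ∧ Group.IsNilpotent F) ∨
      F = sSup {N : Subgroup G | N.Normal ∧ Group.IsNilpotent N})
    (r k : ℕ) (hk : 2 * r + 1 ≤ 2 ^ k)
    (hr : ∃ S : Finset F, S.card ≤ r ∧ Subgroup.closure (S : Set F) = derivedSeries F (k + 1)) :
    ((Nat.card F).primeFactors.sup fun p => (padicValNat p '' cd G).ncard) ≤ (cd G).ncard ∧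
    derivedSeries F
      (k + 1 + Nat.clog 2 ((Nat.card F).primeFactors.sup fun p => (padicValNat p '' cd G).ncard)) =
        ⊥ := by
  obtain ⟨hn, hnil⟩ := fit_cases F hF
  obtain ⟨S, hS, hgen⟩ := hr
  exact ⟨sup_parts_le F, fit_any F hnil r k _ hk (parts_le_sup F) S hS hgen⟩

end Pool.Agent.Results.MP_d8bc21_al.FittingRank
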